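import Pool.Agent.N513.CE.Stm

/-!
# Project CE (helper513): odd order for most points (helper953)
-/

set_option autoImplicit false

namespace Pool.Agent.N953.CE

open Finset
open Pool.Agent.N303.KS
open Pool.Agent.N513.CE

/-! ### The counting part -/

section counting

variable {V : Type} [Fintype V] {al be ga : V → ℕ} {sa sg : Equiv.Perm V} {Bd : V → Prop} {b : ℝ}

lemma al_one (hb : ct Bd ≤ b) (hg : ∀ x, ¬ Bd x → al x = al (sg x) - 1 ∧ be (sg x) = be x - 1) :
    ct (fun x => al x = 1) ≤ b := by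
  have h1 : ct (fun x => 1 ≤ al x) ≤ ct (fun x => 2 ≤ al (sg x)) + ct Bd := by
    refine ct_le_add fun x hx => ?_
    by_cases h : Bd x
    · exact Or.inr h
    · left
      have := (hg x h).1
      show 2 ≤ al (sg x)
      omega
  rw [ct_perm (fun x => 2 ≤ al x) sg] at h1
  have h2 := ct_split (fun x => 1 ≤ al x) (fun x => 2 ≤ al x)
  have h3 : ct (fun x => 2 ≤ al x) ≤ ct (fun x => 1 ≤ al x ∧ 2 ≤ al x) :=
    ct_mono fun x hx => ⟨by omega, hx⟩
  have h4 : ct (fun x => al x = 1) ≤ ct (fun x => 1 ≤ al x ∧ ¬ 2 ≤ al x) :=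
    ct_mono fun x hx => ⟨by omega, by omega⟩
  linarith

lemma be_one (hb : ct Bd ≤ b) (ha : ∀ x, ¬ Bd x → al (sa x) = ga x ∧ be (sa x) = al x ∧ ga (sa x) = be x)
    (hg : ∀ x, ¬ Bd x → al x = al (sg x) - 1 ∧ be (sg x) = be x - 1) :
    ct (fun x => be x = 1) ≤ 2 * b := by
  have h1 := al_one (al := al) (be := be) hb hg
  have h2 : ct (fun x => be (sa x) = 1) ≤ ct (fun x => al x = 1) + ct Bd := by
    refine ct_le_add fun x hx => ?_
    by_cases h : Bd x
    · exact Or.inr h
    · left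
      have := (ha x h).2.1
      show al x = 1
      omega
  rw [ct_perm (fun x => be x = 1) sa] at h2
  linarith

lemma D_step (hb : ct Bd ≤ b) (ha : ∀ x, ¬ Bd x → al (sa x) = ga x ∧ be (sa x) = al x ∧ ga (sa x) = be x)
    (hg : ∀ x, ¬ Bd x → al x = al (sg x) - 1 ∧ be (sg x) = be x - 1) (i : ℕ) :
    ct (fun x => al x = be x + 2 * i ∧ 1 ≤ be x) ≤
      ct (fun x => al x = be x + 2 * (i + 1) ∧ 1 ≤ be x) + 3 * b := by
  have h1 := be_one (al := al) (be := be) hb ha hg
  have h2 : ct (fun x => al x = be x + 2 * i ∧ 1 ≤ be x) ≤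
      ct (fun x => al (sg x) = be (sg x) + 2 * (i + 1) ∧ 1 ≤ be (sg x)) +
      ct (fun x => be x = 1 ∨ Bd x) := by
    refine ct_le_add fun x hx => ?_
    by_cases h : Bd x
    · exact Or.inr (Or.inr h)
    · by_cases h' : be x = 1
      · exact Or.inr (Or.inl h')
      · left
        obtain ⟨g1, g2⟩ := hg x h
        obtain ⟨x1, x2⟩ := hx
        constructor <;> omega
  rw [ct_perm (fun x => al x = be x + 2 * (i + 1) ∧ 1 ≤ be x) sg] at h2
  have h3 : ct (fun x => be x = 1 ∨ Bd x) ≤ ct (fun x => be x = 1) + ct Bd := ct_le_add fun x hx => hx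
  linarith

lemma D_zero (hb : ct Bd ≤ b) (ha : ∀ x, ¬ Bd x → al (sa x) = ga x ∧ be (sa x) = al x ∧ ga (sa x) = be x)
    (hg : ∀ x, ¬ Bd x → al x = al (sg x) - 1 ∧ be (sg x) = be x - 1) (n : ℕ) :
    n * ct (fun x => al x = be x ∧ 1 ≤ be x) ≤ Fintype.card V + 3 * b * n ^ 2 := by
  have hb0 : 0 ≤ b := (ct_nonneg _).trans hb
  have h1 : ∀ i : ℕ, ct (fun x => al x = be x ∧ 1 ≤ be x) ≤
      ct (fun x => al x = be x + 2 * i ∧ 1 ≤ be x) + 3 * b * i := by
    intro i
    induction i with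
    | zero => simp
    | succ i ih =>
      have h2 := D_step (al := al) (be := be) hb ha hg i
      push_cast
      linarith
  have h2 : ∀ k : ℕ, ∑ i ∈ range k, ct (fun x => al x = be x + 2 * i ∧ 1 ≤ be x) ≤
      ct (fun x => (∃ i < k, al x = be x + 2 * i) ∧ 1 ≤ be x) := by
    intro k
    induction k with
    | zero =>
      rw [Finset.sum_range_zero]
      exact ct_nonneg _
    | succ k ih =>
      rw [Finset.sum_range_succ]
      have h3 := ct_split (fun x => (∃ i < k + 1, al x = be x + 2 * i) ∧ 1 ≤ be x)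
        (fun x => al x = be x + 2 * k)
      have h4 : ct (fun x => al x = be x + 2 * k ∧ 1 ≤ be x) ≤
          ct (fun x => ((∃ i < k + 1, al x = be x + 2 * i) ∧ 1 ≤ be x) ∧ al x = be x + 2 * k) :=
        ct_mono fun x hx => ⟨⟨⟨k, by omega, hx.1⟩, hx.2⟩, hx.1⟩
      have h5 : ct (fun x => (∃ i < k, al x = be x + 2 * i) ∧ 1 ≤ be x) ≤
          ct (fun x => ((∃ i < k + 1, al x = be x + 2 * i) ∧ 1 ≤ be x) ∧ ¬ al x = be x + 2 * k) := by
        refine ct_mono fun x hx => ?_
        obtain ⟨⟨i, hi, h6⟩, h7⟩ := hx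
        exact ⟨⟨⟨i, by omega, h6⟩, h7⟩, by omega⟩
      linarith
  have h3 : ct (fun x => (∃ i < n, al x = be x + 2 * i) ∧ 1 ≤ be x) ≤ Fintype.card V := by
    rw [← ct_univ (A := V)]
    exact ct_mono fun _ _ => trivial
  have h4 : ∑ _i ∈ range n, ct (fun x => al x = be x ∧ 1 ≤ be x) ≤
      ∑ i ∈ range n, (ct (fun x => al x = be x + 2 * i ∧ 1 ≤ be x) + 3 * b * n) := by
    refine Finset.sum_le_sum fun i hi => (h1 i).trans ?_
    have h5 : (i : ℝ) ≤ n := by exact_mod_cast (Finset.mem_range.1 hi).le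
    have : 3 * b * i ≤ 3 * b * n := mul_le_mul_of_nonneg_left h5 (by linarith)
    linarith
  rw [Finset.sum_const, Finset.sum_add_distrib, Finset.sum_const, Finset.card_range, nsmul_eq_mul,
    nsmul_eq_mul] at h4
  have h5 := h2 n
  nlinarith

lemma count (hb : ct Bd ≤ b)
    (hu : ∀ x, ¬ Bd x → al x ≤ max (be x) (ga x) ∧ be x ≤ max (al x) (ga x) ∧ ga x ≤ max (al x) (be x))
    (ha : ∀ x, ¬ Bd x → al (sa x) = ga x ∧ be (sa x) = al x ∧ ga (sa x) = be x)
    (hg : ∀ x, ¬ Bd x → al x = al (sg x) - 1 ∧ be (sg x) = be x - 1) (n : ℕ) :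
    n * ct (fun x => 1 ≤ al x) ≤ 3 * Fintype.card V + 9 * b * n ^ 2 + 4 * b * n := by
  have h0 := D_zero (al := al) (be := be) hb ha hg n
  have h1 : ct (fun x => al x = ga x ∧ 1 ≤ al x) ≤ ct (fun x => al x = be x ∧ 1 ≤ be x) + b := by
    have h2 : ct (fun x => al x = ga x ∧ 1 ≤ al x) ≤
        ct (fun x => al (sa x) = be (sa x) ∧ 1 ≤ be (sa x)) + ct Bd := by
      refine ct_le_add fun x hx => ?_
      by_cases h : Bd x
      · exact Or.inr h
      · left
        obtain ⟨a1, a2, a3⟩ := ha x h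
        obtain ⟨x1, x2⟩ := hx
        constructor <;> omega
    rw [ct_perm (fun x => al x = be x ∧ 1 ≤ be x) sa] at h2
    linarith
  have h2 : ct (fun x => be x = ga x ∧ 1 ≤ be x) ≤ ct (fun x => al x = ga x ∧ 1 ≤ al x) + b := by
    have h2 : ct (fun x => be x = ga x ∧ 1 ≤ be x) ≤
        ct (fun x => al (sa x) = ga (sa x) ∧ 1 ≤ al (sa x)) + ct Bd := by
      refine ct_le_add fun x hx => ?_
      by_cases h : Bd x
      · exact Or.inr h
      · left
        obtain ⟨a1, a2, a3⟩ := ha x h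
        obtain ⟨x1, x2⟩ := hx
        constructor <;> omega
    rw [ct_perm (fun x => al x = ga x ∧ 1 ≤ al x) sa] at h2
    linarith
  have h3 : ct (fun x => 1 ≤ al x) ≤ ct (fun x => al x = be x ∧ 1 ≤ be x) +
      ct (fun x => (al x = ga x ∧ 1 ≤ al x) ∨ (be x = ga x ∧ 1 ≤ be x) ∨ Bd x) := by
    refine ct_le_add fun x hx => ?_
    by_cases h : Bd x
    · exact Or.inr (Or.inr (Or.inr h))
    · obtain ⟨u1, u2, u3⟩ := hu x h
      by_cases c1 : al x = be x
      · exact Or.inl ⟨c1, by omega⟩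
      · right
        by_cases c2 : al x = ga x
        · exact Or.inl ⟨c2, hx⟩
        · refine Or.inr (Or.inl ?_)
          constructor <;> omega
  have h4 : ct (fun x => (al x = ga x ∧ 1 ≤ al x) ∨ (be x = ga x ∧ 1 ≤ be x) ∨ Bd x) ≤
      ct (fun x => al x = ga x ∧ 1 ≤ al x) + ct (fun x => (be x = ga x ∧ 1 ≤ be x) ∨ Bd x) :=
    ct_le_add fun x hx => hx
  have h5 : ct (fun x => (be x = ga x ∧ 1 ≤ be x) ∨ Bd x) ≤ ct (fun x => be x = ga x ∧ 1 ≤ be x) + ct Bd :=
    ct_le_add fun x hx => hx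
  have h6 : ct (fun x => 1 ≤ al x) ≤ 3 * ct (fun x => al x = be x ∧ 1 ≤ be x) + 4 * b := by linarith
  have h7 : (0 : ℝ) ≤ n := Nat.cast_nonneg n
  have h8 := mul_le_mul_of_nonneg_left h6 h7
  nlinarith

end counting

/-! ### The orders -/

/-- the exponent of two in the order -/
noncomputable def vv {Q : Type} [Group Q] (q : Q) : ℕ := (orderOf q).factorization 2

section orders

variable {Q : Type} [Group Q] [Finite Q]

lemma vv_inv (q : Q) : vv q⁻¹ = vv q := by
  unfold vv
  rw [orderOf_inv]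

lemma vv_mul {p q : Q} (h : p * q = q * p) : vv (p * q) ≤ max (vv p) (vv q) := by
  have h1 : orderOf (p * q) ∣ Nat.lcm (orderOf p) (orderOf q) := Commute.orderOf_mul_dvd_lcm h
  have h0 : ∀ r : Q, orderOf r ≠ 0 := fun r => (orderOf_pos r).ne'
  have h2 := (Nat.factorization_le_iff_dvd (h0 _) (Nat.lcm_ne_zero (h0 _) (h0 _))).2 h1
  have h3 := h2 2
  rw [Nat.factorization_lcm (h0 _) (h0 _)] at h3
  exact h3

lemma vv_sq (q : Q) : vv (q * q) = vv q - 1 := by
  unfold vv
  have h0 : orderOf q ≠ 0 := (orderOf_pos q).ne'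
  rw [← pow_two, orderOf_pow]
  by_cases h : 2 ∣ orderOf q
  · rw [Nat.gcd_eq_right h, Nat.factorization_div h]
    simp [Nat.Prime.factorization Nat.prime_two]
  · have h1 : Nat.gcd (orderOf q) 2 = 1 := by
      rw [Nat.gcd_comm]
      exact (Nat.Prime.coprime_iff_not_dvd Nat.prime_two).2 h
    rw [h1, Nat.div_one, Nat.factorization_eq_zero_of_not_dvd h]

lemma vv_even {q : Q} (h : Even (orderOf q)) : 1 ≤ vv q :=
  Nat.prime_two.factorization_pos_of_dvd (orderOf_pos q).ne' h.two_dvd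

end orders

theorem t_ODD : S_ODD := by
  classical
  intro P _ m m' a g h1 h2 h3 h4 h5 ε hε
  obtain ⟨n, hn⟩ := exists_nat_gt (6 / ε)
  have hn0 : (0 : ℝ) < n := lt_trans (by positivity) hn
  rw [div_lt_iff₀ hε] at hn
  refine ⟨{1, m, m⁻¹, m', m * m, m' * m', m * m', (m * m')⁻¹}, {a, g},
    ε / (6 * (9 * n + 4)), by positivity, ?_, ?_⟩
  · have hm : m ∈ Subgroup.closure ({m, m'} : Set P) := Subgroup.subset_closure (by simp)
    have hm' : m' ∈ Subgroup.closure ({m, m'} : Set P) := Subgroup.subset_closure (by simp)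
    intro x hx
    simp only [Finset.mem_insert, Finset.mem_singleton] at hx
    rcases hx with rfl | rfl | rfl | rfl | rfl | rfl | rfl | rfl
    · exact Subgroup.one_mem _
    · exact hm
    · exact Subgroup.inv_mem _ hm
    · exact hm'
    · exact Subgroup.mul_mem _ hm hm
    · exact Subgroup.mul_mem _ hm' hm'
    · exact Subgroup.mul_mem _ hm hm'
    · exact Subgroup.inv_mem _ (Subgroup.mul_mem _ hm hm')
  · intro A' B' hA hB V Q _ _ _ σ f Bad hApx
    obtain ⟨hbad, hgood⟩ := hApx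
    have m1 : (1 : P) ∈ A' := hA (by simp)
    have m2 : m ∈ A' := hA (by simp)
    have m3 : m⁻¹ ∈ A' := hA (by simp)
    have m4 : m' ∈ A' := hA (by simp)
    have m5 : m * m ∈ A' := hA (by simp)
    have m6 : m' * m' ∈ A' := hA (by simp)
    have m7 : m * m' ∈ A' := hA (by simp)
    have m8 : (m * m')⁻¹ ∈ A' := hA (by simp)
    have ba : a ∈ B' := hB (by simp)
    have bg : g ∈ B' := hB (by simp)
    -- the values at a good point
    have v1 : ∀ x, ¬ Bad x → f x 1 = 1 := by
      intro x hx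
      have := (hgood x hx).1 1 m1 1 m1 (by rw [one_mul]; exact m1)
      rw [one_mul] at this
      exact (mul_eq_left.1 this.symm)
    have v2 : ∀ x, ¬ Bad x → f x (m * m) = f x m * f x m := fun x hx =>
      (hgood x hx).1 m m2 m m2 m5
    have v3 : ∀ x, ¬ Bad x → f x (m' * m') = f x m' * f x m' := fun x hx =>
      (hgood x hx).1 m' m4 m' m4 m6
    have v4 : ∀ x, ¬ Bad x → f x (m * m') = f x m * f x m' := fun x hx =>
      (hgood x hx).1 m m2 m' m4 m7
    have v5 : ∀ x, ¬ Bad x → f x m * f x m' = f x m' * f x m := fun x hx => by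
      rw [← v4 x hx, ← (hgood x hx).1 m' m4 m m2 (by rw [← h5]; exact m7), h5]
    have v6 : ∀ x, ¬ Bad x → f x ((m * m')⁻¹) = (f x (m * m'))⁻¹ := fun x hx => by
      have := (hgood x hx).1 (m * m') m7 (m * m')⁻¹ m8 (by rw [mul_inv_cancel]; exact m1)
      rw [mul_inv_cancel, v1 x hx] at this
      exact (inv_eq_of_mul_eq_one_right this.symm).symm
    have v7 : ∀ x, ¬ Bad x → f x (m⁻¹) = (f x m)⁻¹ := fun x hx => by
      have := (hgood x hx).1 m m2 m⁻¹ m3 (by rw [mul_inv_cancel]; exact m1)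
      rw [mul_inv_cancel, v1 x hx] at this
      exact (inv_eq_of_mul_eq_one_right this.symm).symm
    -- the bad points
    have hBd : ct (fun x => Bad x ∨ Bad (σ a x) ∨ Bad (σ g x)) ≤
        3 * (ε / (6 * (9 * n + 4)) * Fintype.card V) := by
      have e1 : ct (fun x => Bad x ∨ Bad (σ a x) ∨ Bad (σ g x)) ≤
          ct Bad + ct (fun x => Bad (σ a x) ∨ Bad (σ g x)) := ct_le_add fun x hx => hx
      have e2 : ct (fun x => Bad (σ a x) ∨ Bad (σ g x)) ≤
          ct (fun x => Bad (σ a x)) + ct (fun x => Bad (σ g x)) := ct_le_add fun x hx => hx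
      rw [ct_perm Bad (σ a), ct_perm Bad (σ g)] at e2
      linarith
    have hmain := count (al := fun x => vv (f x m)) (be := fun x => vv (f x m'))
      (ga := fun x => vv (f x (m * m'))) (sa := σ a) (sg := σ g) hBd
      (by
        intro x hx
        rw [not_or, not_or] at hx
        have hx := hx.1
        have c1 := v5 x hx
        have c2 := v4 x hx
        refine ⟨?_, ?_, ?_⟩
        · have e : f x m = (f x m')⁻¹ * (f x (m * m')) := by
            rw [c2, c1, inv_mul_cancel_left]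
          have e3 : (f x m')⁻¹ * (f x (m * m')) = (f x (m * m')) * (f x m')⁻¹ := by
            rw [c2, mul_inv_cancel_right, c1, inv_mul_cancel_left]
          have := vv_mul e3
          rw [← e, vv_inv] at this
          exact this
        · have e : f x m' = (f x m)⁻¹ * (f x (m * m')) := by
            rw [c2, inv_mul_cancel_left]
          have e3 : (f x m)⁻¹ * (f x (m * m')) = (f x (m * m')) * (f x m)⁻¹ := by
            rw [c2, inv_mul_cancel_left, c1, mul_inv_cancel_right]
          have := vv_mul e3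
          rw [← e, vv_inv] at this
          exact this
        · rw [c2]
          exact vv_mul c1)
      (by
        intro x hx
        rw [not_or, not_or] at hx
        obtain ⟨hx, hxa, _⟩ := hx
        obtain ⟨_, _, hc, _⟩ := hgood x hx
        have k1 := hc a ba m m2 (by rw [h1]; exact m4)
        have k2 := hc a ba m' m4 (by rw [h2]; exact m8)
        have e : a * (m * m') * a⁻¹ = m⁻¹ := by
          have : a * (m * m') * a⁻¹ = (a * m * a⁻¹) * (a * m' * a⁻¹) := by group
          rw [this, h1, h2, mul_inv_rev, mul_inv_cancel_left]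
        have k3 := hc a ba (m * m') m7 (by rw [e]; exact m3)
        rw [h1] at k1
        rw [h2, v6 _ hxa] at k2
        rw [e, v7 _ hxa] at k3
        refine ⟨?_, ?_, ?_⟩
        · rw [← k3, vv_inv]
        · rw [k1]
        · rw [← k2, vv_inv])
      (by
        intro x hx
        rw [not_or, not_or] at hx
        obtain ⟨hx, _, hxg⟩ := hx
        obtain ⟨_, _, hc, _⟩ := hgood x hx
        have k1 := hc g bg m m2 (by rw [h3, pow_two]; exact m5)
        have k2 := hc g bg (m' * m') m6 (by rw [← pow_two, h4]; exact m4)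
        rw [h3, pow_two, v2 _ hxg] at k1
        rw [← pow_two m', h4, pow_two, v3 x hx] at k2
        refine ⟨?_, ?_⟩
        · rw [← k1, vv_sq]
        · rw [k2, vv_sq]) n
    have hev : ct (fun x => Even (orderOf (f x m))) ≤ ct (fun x => 1 ≤ vv (f x m)) :=
      ct_mono fun x hx => vv_even hx
    refine hev.trans ?_
    have hN : (0 : ℝ) ≤ Fintype.card V := Nat.cast_nonneg _
    obtain ⟨X, hX⟩ : ∃ X, X = ct (fun x => 1 ≤ vv (f x m)) := ⟨_, rfl⟩
    rw [← hX] at hmain ⊢
    have e1 : 9 * (3 * (ε / (6 * (9 * n + 4)) * Fintype.card V)) * (n : ℝ) ^ 2 +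
        4 * (3 * (ε / (6 * (9 * n + 4)) * Fintype.card V)) * n = (ε / 2 * Fintype.card V) * n := by
      field_simp
      ring
    have e2 : 3 * (Fintype.card V : ℝ) ≤ (ε / 2 * Fintype.card V) * n := by nlinarith
    have e3 : n * X ≤ n * (ε * Fintype.card V) := by nlinarith
    exact le_of_mul_le_mul_left e3 hn0

end Pool.Agent.N953.CE
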